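import Mathlib
import Pool.Agent.Q290.ER.Rep

/-!
# Orders of vanishing as dimensions of spaces of homomorphisms

`M/K` is a Galois extension of number fields with group `M ≃ₐ[K] M` and `E` is an elliptic curve over
`K` with an integral equation `W` (`IsModel E W`). In the problem `K` is the field of rational
numbers, `f` is the newform of weight `k = 2` of `E`, and `V = V_g ⊗ V_h` is a representation of the
Galois group of `M` over `K`.

The L-functions are real ones. `LSeries V` is the Euler product `L(E/F, s)`, computed from the models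
`V`, minimal at all primes of `F`, for `Re s > 3/2`.
`Pool.Agent.Q92.RT.twistedL M W φ` is `L(E ⊗ φ, s)` for a class function `φ` of the Galois group:
`exp ∑ φ(Frob_v ^ n) (α_v ^ n + β_v ^ n) / (n q_v ^ (n s))` over `n ≥ 1` and the primes `v` of `K`
which do not divide `6` and the discriminant of `W` and are unramified in `M`; the finitely many
Euler factors left out have no zeros and poles for `Re s ≥ 1`. `HasOrder g s₀ n` and `LOrder E s₀ n`
say that `g`, or `L(E, s)`, has a meromorphic continuation to `ℂ`, of order `n` at `s₀`.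

`Pool.Agent.Q92.RT.Automorphic M W 1` is known if `E` is automorphic over `M`: `L(E ⊗ χ, s)` has a
meromorphic continuation for the irreducible characters `χ` of the Galois group (Brauer), and
`L(E/M ^ H ⊗ ψ, s)` has one which is holomorphic at `1` for the linear characters `ψ` of the
solvable subgroups `H` (solvable descent). `Pool.Agent.Q7.RL.FunctionalEquations M W`: the functional
equations near `s = 1`, with root number one for symplectic characters (Rohrlich).

`Pool.Agent.Q7.RL.rank E` is the rank of the group of points, and `Pool.Agent.Q290.ER.mwC E M` the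
representation of the Galois group on `ℂ ⊗ E(M)`. `Representation.IntertwiningMap σ τ` (Mathlib) is
the space of the equivariant linear maps from `σ` to `τ`.
-/

set_option autoImplicit false

open NumberField Pool.Agent.H541R3.ART Pool.Agent.W446.AS Pool.Agent.Q7.SZ Pool.Agent.Q7.RL
  Pool.Agent.Q290.Schur Pool.Agent.Q92.RT Pool.Agent.W353.NF Pool.Agent.H341R2.EC
  Pool.Agent.Q290.ER Representation

/-- Let `L(E/M, s)` have order at most three at `s = 1`. The following are equivalent:

(1) for every field `F` between `K` and `M` such that `M/F` is CYCLIC the order of `L(E/F, s)` at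
`s = 1` is the rank of `E(F)`;

(2) this holds for every field `F` between `K` and `M`;

(3) for EVERY representation `V` of the Galois group of `M/K` the order of `L(E ⊗ V, s)` at `s = 1`
is the dimension of the space of equivariant maps from `V` to `ℂ ⊗ E(M)`. -/
theorem Pool.Agent.Results.MP_60ff09_nt.CyclicFieldsDecide.result
    (K M : Type) [Field K] [NumberField K] [Field M] [NumberField M] [Algebra K M] [IsGalois K M]
    (E : WeierstrassCurve K) (hE : E.IsElliptic) (W : WeierstrassCurve (𝓞 K)) (hW : IsModel E W)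
    (Λ : FunctionalEquations M W) (a : Automorphic M W 1)
    (r : ℕ) (hr : r ≤ 3) (hM : LOrder (E.map (algebraMap K M)) 1 r) :
    List.TFAE [
      ∀ F : IntermediateField K M, IsCyclic (M ≃ₐ[F] M) →
        LOrder (E.map (algebraMap K F)) 1 (rank (E.map (algebraMap K F))),
      ∀ F : IntermediateField K M,
        LOrder (E.map (algebraMap K F)) 1 (rank (E.map (algebraMap K F))),
      ∀ (V : Type) [AddCommGroup V] [Module ℂ V] [FiniteDimensional ℂ V]
        (σ : Representation ℂ (M ≃ₐ[K] M) V),
        HasOrder (twistedL M W σ.character) 1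
          (Module.finrank ℂ (IntertwiningMap σ (mwC E M)))] := by
  classical
  have : Fintype (M ≃ₐ[K] M) := Fintype.ofFinite _
  have hfin : FiniteDimensional ℚ (TensorProduct ℤ ℚ (E.baseChange M).toAffine.Point) :=
    mw_finite hE
  obtain ⟨n, o, ho⟩ := exists_orders (M := M) hE hW (by simp) a
  have hG : (Nat.card (M ≃ₐ[K] M) : ℂ) ≠ 0 := by exact_mod_cast Nat.card_pos.ne'
  have htop : o ⊤ = r := ho.eq_of_lorder_top hE hW (by simp) a hM
  set A := TwistData.ofCurve a with hA
  have hrr : meromorphicOrderAt (A.Lin ⊥ 1) 1 = (r : WithTop ℤ) := by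
    rw [ho.bot hE hW (by simp) a, htop]
    rfl
  have hdual : ∀ χ ∈ Irr (M ≃ₐ[K] M), A.ord (fun g => χ g⁻¹) = A.ord χ :=
    fun χ hχ => Λ.ord_inv a hχ
  have hreal : ∀ g : M ≃ₐ[K] M, (theta A.ord : (M ≃ₐ[K] M) → ℂ) g⁻¹ = theta A.ord g :=
    theta_inv_of A.ord hdual
  -- the orders over the fields between `K` and `M`
  have hsum : ∀ F : IntermediateField K M,
      ∑ᶠ h : F.fixingSubgroup, (theta A.ord : (M ≃ₐ[K] M) → ℂ) h =
        ((o F : ℤ) : ℂ) * Nat.card F.fixingSubgroup := by
    intro F
    obtain ⟨k, hk1, hk2⟩ := A.order_one F.fixingSubgroup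
    have h1 := ho.lin hE hW (by simp) a F
    rw [← hA, hk1] at h1
    have h2 : k = o F := WithTop.coe_injective h1
    rw [hk2, h2]
  have hell : ∀ F : IntermediateField K M, (E.map (algebraMap K F)).IsElliptic :=
    fun F => inferInstance
  have hF : ∀ F : IntermediateField K M,
      LOrder (E.map (algebraMap K F)) 1 (rank (E.map (algebraMap K F))) ↔
        o F = rank (E.map (algebraMap K F)) := by
    intro F
    constructor
    · intro h
      exact (ho.field F).unique (hell F) h
    · intro h
      have h1 := ho.field F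
      rw [h] at h1
      exact h1
  -- what is to be shown: the orders are the multiplicities in `ℚ ⊗ E(M)`
  have key : (∀ g, (theta A.ord : (M ≃ₐ[K] M) → ℂ) g = qtr (mw E M) g) →
      ∀ F : IntermediateField K M, o F = rank (E.map (algebraMap K F)) := by
    intro hθ F
    have hH : (Nat.card F.fixingSubgroup : ℂ) ≠ 0 := by exact_mod_cast Nat.card_pos.ne'
    have h1 := hsum F
    have h2 : ∑ᶠ h : F.fixingSubgroup, (theta A.ord : (M ≃ₐ[K] M) → ℂ) h =
        ∑ᶠ h : F.fixingSubgroup, qtr (mw E M) h := finsum_congr fun h => hθ h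
    rw [h2, qtr_sum, rk_mw F] at h1
    have h3 := mul_right_cancel₀ hH h1
    exact_mod_cast h3.symm
  have hnθ : (∀ g, (theta A.ord : (M ≃ₐ[K] M) → ℂ) g = qtr (mw E M) g) →
      ∀ χ ∈ Irr (M ≃ₐ[K] M), n χ = mlt (mwC E M) χ := by
    intro hθ χ hχ
    have h1 : ∑ᶠ g : M ≃ₐ[K] M, (mwC E M).character g * χ g⁻¹ =
        ((n χ : ℤ) : ℂ) * Nat.card (M ≃ₐ[K] M) := by
      rw [← ho.ord a hχ, ← hA, ← theta_pair A.ord hχ, finsum_eq_sum_of_fintype]
      refine Finset.sum_congr rfl fun g _ => ?_
      rw [hθ g]
      unfold mwC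
      rw [cx_char]
    have h2 := mlt_unique (mwC E M) hχ h1
    exact_mod_cast h2.symm
  tfae_have 2 → 1 := fun h F _ => h F
  tfae_have 1 → 3 := by
    intro h V _ _ _ σ
    have hθ : ∀ g, (theta A.ord : (M ≃ₐ[K] M) → ℂ) g = qtr (mw E M) g := by
      apply eq_qtr A.isSol hreal hr (A.theta_one hrr)
      intro x
      obtain ⟨F, hx⟩ := exists_fixing (Subgroup.zpowers x)
      have hcyc : IsCyclic (M ≃ₐ[F] M) := by
        have h1 : IsCyclic F.fixingSubgroup := by
          rw [hx]
          infer_instance
        exact isCyclic_of_surjective (IntermediateField.fixingSubgroupEquiv F)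
          (IntermediateField.fixingSubgroupEquiv F).surjective
      have h1 := (hF F).1 (h F hcyc)
      have h2 := hsum F
      rw [← hx, h2, h1, rk_mw F]
      push_cast
      rfl
    have h1 := hasOrder_rep ho a σ
    have h2 : (∑ χ ∈ irrF (M ≃ₐ[K] M), (mlt σ χ : ℤ) * n χ) =
        Module.finrank ℂ (IntertwiningMap σ (mwC E M)) := by
      have h3 := finrank_hom σ (mwC E M)
      have h4 : (∑ χ ∈ irrF (M ≃ₐ[K] M), (mlt σ χ : ℤ) * n χ) =
          ∑ χ ∈ irrF (M ≃ₐ[K] M), (mlt σ χ : ℤ) * (mlt (mwC E M) χ : ℤ) :=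
        Finset.sum_congr rfl fun χ hχ => by rw [hnθ hθ χ (mem_irrF.1 hχ)]
      rw [h4]
      exact_mod_cast h3.symm
    rw [h2] at h1
    exact h1
  tfae_have 3 → 2 := by
    intro h F
    rw [hF F]
    refine key (fun g => ?_) F
    have hn : ∀ χ ∈ Irr (M ≃ₐ[K] M), A.ord χ = mlt (mwC E M) χ := by
      intro χ hχ
      obtain ⟨n', σ, hσ, e⟩ := id hχ
      have h1 := h _ σ
      rw [← e] at h1
      rw [ho.ord a hχ, (ho.twist χ hχ).unique h1]
      have : Invertible (Nat.card (M ≃ₐ[K] M) : ℂ) := invertibleOfNonzero hG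
      have h2 := Representation.card_inv_mul_sum_char_mul_char_eq_finrank σ (mwC E M)
      have h3 : ∑ᶠ g : M ≃ₐ[K] M, (mwC E M).character g * χ g⁻¹ =
          (Module.finrank ℂ (IntertwiningMap σ (mwC E M)) : ℂ) * Nat.card (M ≃ₐ[K] M) := by
        rw [← h2, finsum_eq_sum_of_fintype, e]
        field_simp
      have h4 := mlt_unique (mwC E M) hχ h3
      exact_mod_cast h4.symm
    have h5 := char_expand (mwC E M) g
    have h6 : (mwC E M).character g = qtr (mw E M) g := by
      unfold mwC
      rw [cx_char]
    rw [← h6, h5]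
    change ∑ χ ∈ irrF (M ≃ₐ[K] M), (A.ord χ : ℂ) * χ g = _
    exact Finset.sum_congr rfl fun χ hχ => by
      rw [hn χ (mem_irrF.1 hχ)]
      push_cast
      rfl
  tfae_finish
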