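import Mathlib
import Pool.Agent.Q290.ER.Inv
import Pool.Agent.Q290.RL.RatDefs

/-!
# All zeros at the centre come from an extension of bounded degree

`M/K` is a Galois extension of number fields with group `M ≃ₐ[K] M` and `E` is an elliptic curve over
`K` with an integral equation `W` (`IsModel E W`). In the problem `K` is the field of rational
numbers, `f` is the newform of weight `k = 2` of `E`, and `V = V_g ⊗ V_h` is a representation of the
Galois group of `M` over `K`.

The L-functions are real ones. `LSeries V` is the Euler product `L(E/F, s)`, computed from the models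
`V`, minimal at all primes of `F`, for `Re s > 3/2`.
`Pool.Agent.Q92.RT.twistedL M W φ` is `L(E ⊗ φ, s)` for a class function `φ` of the Galois group:
`exp ∑ φ(Frob_v ^ n) (α_v ^ n + β_v ^ n) / (n q_v ^ (n s))` over `n ≥ 1` and the primes `v` of `K`
which do not divide `6` and the discriminant of `W` and are unramified in `M`; the finitely many
Euler factors left out have no zeros and poles for `Re s ≥ 1`. `HasOrder g s₀ n` and `LOrder E s₀ n`
say that `g`, or `L(E, s)`, has a meromorphic continuation to `ℂ`, of order `n` at `s₀`.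

`Pool.Agent.Q92.RT.Automorphic M W 1` is known if `E` is automorphic over `M`: `L(E ⊗ χ, s)` has a
meromorphic continuation for the irreducible characters `χ` of the Galois group (Brauer), and
`L(E/M ^ H ⊗ ψ, s)` has one which is holomorphic at `1` for the linear characters `ψ` of the
solvable subgroups `H` (solvable descent). `Pool.Agent.Q7.RL.FunctionalEquations M W`: the functional
equations near `s = 1`, with root number one for symplectic characters (Rohrlich).
`Pool.Agent.Q290.RL.OrbitInvariant M W`: for the cyclic extensions `M / M ^ g` the nonvanishing of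
`L(E / M ^ g ⊗ ψ, 1)` depends only on the Galois orbit of `ψ` (Shimura, Hida).

`Pool.Agent.Q7.RL.rank E` is the rank of the group of points, and `Pool.Agent.Q290.ER.mwC E M` the
representation of the Galois group on `ℂ ⊗ E(M)`. `Representation.IntertwiningMap σ τ` (Mathlib) is
the space of the equivariant linear maps from `σ` to `τ`, and `σ.toInvariants N` (Mathlib) the
representation on the invariants of the normal subgroup `N`.
-/

set_option autoImplicit false
set_option linter.unusedSectionVars false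

namespace Pool.Agent.Results.MP_60ff09_nt.FieldOfTheZeros

open NumberField Pool.Agent.H541R3.ART Pool.Agent.W446.AS Pool.Agent.Q7.SZ Pool.Agent.Q7.RL
  Pool.Agent.Q290.Schur Pool.Agent.Q92.RT Pool.Agent.W353.NF Pool.Agent.H341R2.EC
  Pool.Agent.Q290.ER Pool.Agent.Q290.RL Representation

/-- For the cyclic extensions `M / M ^ g` the order of `L(E / M ^ g ⊗ ψ, s)` at `s = 1` depends only
on the Galois orbit of `ψ`. -/
def OrderInvariant {K : Type} [Field K] [NumberField K] (M : Type) [Field M] [NumberField M]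
    [Algebra K M] (W : WeierstrassCurve (𝓞 K)) : Prop :=
  ∀ (g : M ≃ₐ[K] M) (ψ : Subgroup.zpowers g →* ℂˣ) (k : ℕ), k.Coprime (orderOf g) → ∀ j : ℤ,
    (HasOrder (twistedL M W (induced (Subgroup.zpowers g) ψ)) 1 j ↔
      HasOrder (twistedL M W (induced (Subgroup.zpowers g) (pwL k ψ))) 1 j)

/-- the formula of the problem for the representation `σ` of the Galois group -/
def Formula {K M : Type} [Field K] [NumberField K] [Field M] [NumberField M] [Algebra K M]
    (E : WeierstrassCurve K) (W : WeierstrassCurve (𝓞 K)) {V : Type} [AddCommGroup V] [Module ℂ V]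
    (σ : Representation ℂ (M ≃ₐ[K] M) V) : Prop :=
  HasOrder (twistedL M W σ.character) 1 (Module.finrank ℂ (IntertwiningMap σ (mwC E M)))

/-- Let `r` be the order of `L(E/M, s)` at `s = 1`. Suppose

* that `r ≤ 2`, or that `r = 3` and the Galois group is solvable, or that no `L(E ⊗ χ, s)` has a
  pole at `s = 1`;
* that `r ≤ 5` and for the cyclic extensions `M / M ^ g` the nonvanishing of
  `L(E / M ^ g ⊗ ψ, 1)` depends only on the Galois orbit of `ψ` (known: Shimura, Hida), or (then `r`
  is arbitrary) that the order of these functions at `1` depends only on the Galois orbit of `ψ`.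

Then there is a field `M₀` between `K` and `M`, Galois over `K`, such that

(1) the degree of `M₀` over `K` divides Schur's number of `r`, which is `1, 2, 24, 48, 5760, 11520`
for `r = 0, 1, 2, 3, 4, 5`, and it is at most `12` if `r = 2`;

(2) for all fields `F` between `K` and `M`, `L(E/F, s)` has order `r` at `1` if and only if `F`
contains `M₀`, and in general the order over `F` is the order over the intersection of `F` and `M₀`;

(3) for EVERY representation `V` of the Galois group of `M/K`, `L(E ⊗ V, s)` has the same order at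
`s = 1` as `L(E ⊗ V₀, s)`, where `V₀` is the space of the vectors of `V` fixed by the Galois group
of `M/M₀`;

(4) the formula of the problem holds for ALL representations of the Galois group of `M/K` if and
only if `E(M)` has rank `r` and it holds for the representations of the Galois group of `M₀/K`. -/
theorem result
    (K M : Type) [Field K] [NumberField K] [Field M] [NumberField M] [Algebra K M] [IsGalois K M]
    (E : WeierstrassCurve K) (hE : E.IsElliptic) (W : WeierstrassCurve (𝓞 K)) (hW : IsModel E W)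
    (Λ : FunctionalEquations M W) (a : Automorphic M W 1)
    (r : ℕ) (hM : LOrder (E.map (algebraMap K M)) 1 r)
    (hol : r ≤ 2 ∨ (r = 3 ∧ Group.IsSolvable (M ≃ₐ[K] M)) ∨
      ∀ χ ∈ Irr (M ≃ₐ[K] M), ∀ k : ℤ, HasOrder (twistedL M W χ) 1 k → 0 ≤ k)
    (hinv : (r ≤ 5 ∧ OrbitInvariant M W) ∨ OrderInvariant M W) :
    ∃ (M₀ : IntermediateField K M) (_ : IsGalois K M₀) (_ : M₀.fixingSubgroup.Normal),
      -- the degree
      (∀ p : ℕ, p.Prime → (Module.finrank K M₀).factorization p ≤
        (r + r / (p - 1)).factorial.factorization p) ∧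
      (r ≤ 5 → Module.finrank K M₀ ∣ [1, 2, 24, 48, 5760, 11520].getD r 0) ∧
      (r = 2 → Module.finrank K M₀ ≤ 12) ∧
      -- the fields
      (∀ F : IntermediateField K M, LOrder (E.map (algebraMap K F)) 1 r ↔ M₀ ≤ F) ∧
      (∀ (F : IntermediateField K M) (k : ℤ), LOrder (E.map (algebraMap K F)) 1 k ↔
        LOrder (E.map (algebraMap K (F ⊓ M₀ : IntermediateField K M))) 1 k) ∧
      -- all representations
      (∀ (V : Type) [AddCommGroup V] [Module ℂ V] [FiniteDimensional ℂ V]
        (σ : Representation ℂ (M ≃ₐ[K] M) V), ∃ k : ℕ,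
          HasOrder (twistedL M W σ.character) 1 k ∧
          HasOrder (twistedL M W (σ.toInvariants M₀.fixingSubgroup).character) 1 k) ∧
      -- the formula
      ((∀ (V : Type) [AddCommGroup V] [Module ℂ V] [FiniteDimensional ℂ V]
        (σ : Representation ℂ (M ≃ₐ[K] M) V), Formula E W σ) ↔
        rank (E.map (algebraMap K M)) = r ∧
        ∀ (V : Type) [AddCommGroup V] [Module ℂ V] [FiniteDimensional ℂ V]
          (σ : Representation ℂ (M ≃ₐ[K] M) V), (∀ x ∈ M₀.fixingSubgroup, σ x = 1) →
            Formula E W σ) := by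
  classical
  have : Fintype (M ≃ₐ[K] M) := Fintype.ofFinite _
  have hfin : FiniteDimensional ℚ (TensorProduct ℤ ℚ (E.baseChange M).toAffine.Point) :=
    mw_finite hE
  obtain ⟨n₀, o, ho₀⟩ := exists_orders (M := M) hE hW (by simp) a
  set A := (TwistData.ofCurve a).model with hA
  have hord : ∀ χ ∈ Irr (M ≃ₐ[K] M), A.ord χ = n₀ χ := fun χ hχ => ho₀.mord a hχ
  have ho : Orders E W 1 A.ord o :=
    ⟨fun χ hχ => by rw [hord χ hχ]; exact ho₀.twist χ hχ, ho₀.field⟩
  have htop : o ⊤ = r := ho.eq_of_lorder_top hE hW (by simp) a hM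
  have hb := ho.mbot hE hW (by simp) a
  rw [htop] at hb
  have hind : ∀ (H : Subgroup (M ≃ₐ[K] M)) (ψ : H →* ℂˣ) (k : ℤ),
      HasOrder (twistedL M W (induced H ψ)) 1 k ↔
        meromorphicOrderAt (A.Lin H ψ) 1 = (k : WithTop ℤ) := by
    intro H ψ k
    rw [ind_iff a H ψ k, hA, model_Lin]
  have hL : ∀ χ ∈ Irr (M ≃ₐ[K] M), meromorphicOrderAt (A.L χ) 1 =
      ((A.ord χ : ℤ) : WithTop ℤ) := fun χ hχ => (A.coe_ord hχ).symm
  -- no poles
  have hn : ∀ χ ∈ Irr (M ≃ₐ[K] M), 0 ≤ A.ord χ := by
    rcases hol with h | h | h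
    · exact ord_nonneg (Λ.model a) hb (Or.inl h)
    · exact ord_nonneg (Λ.model a) hb (Or.inr h)
    · exact fun χ hχ => h χ hχ _ (ho.twist χ hχ)
  obtain ⟨N, hN, h1, h2, h3, h4, h5, h6, -, -⟩ := mink_core (M ≃ₐ[K] M) A (Λ.model a) r hb
    (by
      refine Or.inr (Or.inr fun χ hχ => ?_)
      rw [hL χ hχ]
      exact_mod_cast hn χ hχ)
    (by
      rcases hinv with ⟨h, h'⟩ | h
      · refine Or.inl ⟨h, fun g ψ k hk => ?_⟩
        have h6 := h' g ψ k hk
        rw [hind, hind] at h6
        exact h6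
      · refine Or.inr fun g ψ k hk => ?_
        obtain ⟨j, hj⟩ := Lin_order_ne_top A (Subgroup.zpowers g) ψ
        have h6 := h g ψ k hk j
        rw [hind, hind] at h6
        rw [hj]
        exact h6.1 hj)
  obtain ⟨M₀, hM₀, rfl⟩ := exists_galois N
  -- characters not trivial on `N`
  have hzero : ∀ χ ∈ Irr (M ≃ₐ[K] M), (¬ ∀ x ∈ M₀.fixingSubgroup, χ x = χ 1) → A.ord χ = 0 := by
    intro χ hχ h
    push Not at h
    have h7 := h6 χ hχ h
    rw [hL χ hχ] at h7
    exact_mod_cast h7
  have hell : ∀ F : IntermediateField K M, (E.map (algebraMap K F)).IsElliptic :=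
    fun F => inferInstance
  have hF : ∀ (F : IntermediateField K M) (k : ℤ),
      LOrder (E.map (algebraMap K F)) 1 k ↔ o F = k := by
    intro F k
    constructor
    · intro h
      exact (ho.field F).unique (hell F) h
    · rintro rfl
      exact ho.field F
  have hmlin : ∀ F : IntermediateField K M, meromorphicOrderAt (A.Lin F.fixingSubgroup 1) 1 =
      ((o F : ℤ) : WithTop ℤ) := fun F => ho.mlin hE hW (by simp) a F
  have hpos : ∀ χ ∈ irrF (M ≃ₐ[K] M), ∃ d : ℕ, 0 < d ∧ χ 1 = d :=
    fun χ hχ => irr_deg_pos (mem_irrF.1 hχ)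
  refine ⟨M₀, hM₀, hN, ?_, ?_, ?_, ?_, ?_, ?_, ?_⟩
  · rw [finrank_eq_index]
    exact h1
  · rw [finrank_eq_index]
    exact h2
  · rw [finrank_eq_index]
    exact h3
  · intro F
    rw [hF, ← fixing_le_iff, ← h4, hmlin]
    constructor
    · intro h
      rw [h]
      rfl
    · intro h
      exact WithTop.coe_injective h
  · intro F k
    rw [hF, hF]
    have h7 := h5 F.fixingSubgroup
    rw [← fixingSubgroup_inf, hmlin, hmlin] at h7
    have h8 : o F = o (F ⊓ M₀) := WithTop.coe_injective h7
    rw [h8]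
  · intro V _ _ _ σ
    have h7 := hasOrder_rep ho a σ
    have h8 := hasOrder_rep ho a (σ.toInvariants M₀.fixingSubgroup)
    have h9 : (∑ χ ∈ irrF (M ≃ₐ[K] M),
        (mlt (σ.toInvariants M₀.fixingSubgroup) χ : ℤ) * A.ord χ) =
        ∑ χ ∈ irrF (M ≃ₐ[K] M), (mlt σ χ : ℤ) * A.ord χ := by
      refine Finset.sum_congr rfl fun χ hχ => ?_
      by_cases h : ∀ x ∈ M₀.fixingSubgroup, χ x = χ 1
      · rw [mlt_toInvariants _ σ (mem_irrF.1 hχ) h]
      · rw [hzero χ (mem_irrF.1 hχ) h, mul_zero, mul_zero]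
    rw [h9] at h8
    obtain ⟨k, hk⟩ := Int.eq_ofNat_of_zero_le
      (a := ∑ χ ∈ irrF (M ≃ₐ[K] M), (mlt σ χ : ℤ) * A.ord χ)
      (Finset.sum_nonneg fun χ hχ => mul_nonneg (Int.natCast_nonneg _) (hn χ (mem_irrF.1 hχ)))
    rw [hk] at h7 h8
    exact ⟨k, h7, h8⟩
  · -- the orders determine the formula
    have hirr : ∀ χ ∈ Irr (M ≃ₐ[K] M), (∀ (m : ℕ) (ρ : Representation ℂ (M ≃ₐ[K] M) (Fin m → ℂ)),
        ρ.character = χ → Formula E W ρ) → A.ord χ = mlt (mwC E M) χ := by
      intro χ hχ h
      have hχ' := hχ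
      obtain ⟨m, ρ, hρ, rfl⟩ := hχ
      have h7 := h m ρ rfl
      unfold Formula at h7
      rw [← mlt_eq_finrank ρ hχ'] at h7
      exact (ho.twist _ hχ').unique h7
    have hform : (∀ χ ∈ Irr (M ≃ₐ[K] M), A.ord χ = mlt (mwC E M) χ) →
        ∀ (V : Type) [AddCommGroup V] [Module ℂ V] [FiniteDimensional ℂ V]
          (σ : Representation ℂ (M ≃ₐ[K] M) V), Formula E W σ := by
      intro h V _ _ _ σ
      have h7 := hasOrder_rep ho a σ
      have h8 : (∑ χ ∈ irrF (M ≃ₐ[K] M), (mlt σ χ : ℤ) * A.ord χ) =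
          Module.finrank ℂ (IntertwiningMap σ (mwC E M)) := by
        have h9 := finrank_hom σ (mwC E M)
        have h10 : (∑ χ ∈ irrF (M ≃ₐ[K] M), (mlt σ χ : ℤ) * A.ord χ) =
            ∑ χ ∈ irrF (M ≃ₐ[K] M), (mlt σ χ : ℤ) * (mlt (mwC E M) χ : ℤ) :=
          Finset.sum_congr rfl fun χ hχ => by rw [h χ (mem_irrF.1 hχ)]
        rw [h10]
        exact_mod_cast h9.symm
      rw [h8] at h7
      exact h7
    -- the dimensions
    have hrank : (∑ χ ∈ irrF (M ≃ₐ[K] M), (mlt (mwC E M) χ : ℂ) * χ 1) =
        rank (E.map (algebraMap K M)) := by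
      rw [← char_expand (mwC E M) 1, ← rk_mw_bot (M := M), rk_bot]
      have h7 : (mwC E M).character 1 = qtr (mw E M) 1 := by
        unfold mwC
        rw [cx_char]
      rw [h7]
      unfold qtr
      rw [map_one, LinearMap.trace_one]
      push_cast
      rfl
    have hr : (∑ χ ∈ irrF (M ≃ₐ[K] M), (A.ord χ : ℂ) * χ 1) = r := A.theta_one hb
    constructor
    · intro h
      refine ⟨?_, fun V _ _ _ σ _ => h V σ⟩
      have h7 : ∀ χ ∈ Irr (M ≃ₐ[K] M), A.ord χ = mlt (mwC E M) χ :=
        fun χ hχ => hirr χ hχ fun m ρ _ => h _ ρ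
      have h8 : (∑ χ ∈ irrF (M ≃ₐ[K] M), (mlt (mwC E M) χ : ℂ) * χ 1) =
          ∑ χ ∈ irrF (M ≃ₐ[K] M), (A.ord χ : ℂ) * χ 1 :=
        Finset.sum_congr rfl fun χ hχ => by
          rw [h7 χ (mem_irrF.1 hχ)]
          push_cast
          rfl
      rw [hrank, hr] at h8
      exact_mod_cast h8
    · rintro ⟨hrk, h⟩
      refine hform fun χ hχ => ?_
      -- the characters trivial on `N`
      have htr : ∀ χ ∈ Irr (M ≃ₐ[K] M), (∀ x ∈ M₀.fixingSubgroup, χ x = χ 1) →
          A.ord χ = mlt (mwC E M) χ := by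
        intro χ hχ ht
        refine hirr χ hχ fun m ρ hρ => h _ ρ fun x hx => ?_
        apply Pool.Agent.Y788.V.rep_triv ρ
        rw [hρ]
        exact ht x hx
      by_cases ht : ∀ x ∈ M₀.fixingSubgroup, χ x = χ 1
      · exact htr χ hχ ht
      -- the other characters
      choose! d hd0 hd using hpos
      have h7 : (∑ χ ∈ irrF (M ≃ₐ[K] M), ((mlt (mwC E M) χ : ℤ) - A.ord χ) * (d χ : ℤ)) = 0 := by
        have h8 : (∑ χ ∈ irrF (M ≃ₐ[K] M),
            (((mlt (mwC E M) χ : ℤ) - A.ord χ : ℤ) : ℂ) * (d χ : ℂ)) = 0 := by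
          have h9 : ∀ χ ∈ irrF (M ≃ₐ[K] M),
              (((mlt (mwC E M) χ : ℤ) - A.ord χ : ℤ) : ℂ) * (d χ : ℂ) =
                (mlt (mwC E M) χ : ℂ) * χ 1 - (A.ord χ : ℂ) * χ 1 := by
            intro χ hχ
            rw [hd χ hχ]
            push_cast
            ring
          rw [Finset.sum_congr rfl h9, Finset.sum_sub_distrib, hrank, hr, hrk, sub_self]
        exact_mod_cast h8
      have h8 : ∀ χ ∈ irrF (M ≃ₐ[K] M),
          0 ≤ ((mlt (mwC E M) χ : ℤ) - A.ord χ) * (d χ : ℤ) := by
        intro χ hχ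
        by_cases ht : ∀ x ∈ M₀.fixingSubgroup, χ x = χ 1
        · rw [htr χ (mem_irrF.1 hχ) ht, sub_self, zero_mul]
        · rw [hzero χ (mem_irrF.1 hχ) ht, sub_zero]
          positivity
      have h9 := (Finset.sum_eq_zero_iff_of_nonneg h8).1 h7 χ (mem_irrF.2 hχ)
      rcases mul_eq_zero.1 h9 with h10 | h10
      · omega
      · have h11 := hd0 χ (mem_irrF.2 hχ)
        omega

end Pool.Agent.Results.MP_60ff09_nt.FieldOfTheZeros
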