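import Pool.Agent.Q274.TP.Cor
import Pool.Agent.Q274.TP.Lf

/-!
# Triple products `f ⊗ g ⊗ h` of weights `(k, 1, 1)` with `V_g ⊗ V_h` a sum of quadratic characters

Let `K = ℚ(√-7)`, let `E = X_0(49) : y² + x y = x³ - x² - 2 x - 1`, with complex multiplication by the integers
of `K`, and let `ψ` be its Hecke character. For even `i ≥ 0` let `f_i` be the newform of weight `k = 2 i + 2`, level
`49` and trivial character attached to `ψ^(2i+1)`; `f_0` is the newform of `E`.

**The forms of weight one.** Let `g`, `h` be eigenforms of weight one with `χ_g χ_h = 1` such that `V_g ⊗ V_h` is the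
sum of four quadratic characters `χ_c` (the character of `ℚ(√c)`). This happens for the Eisenstein series of quadratic
characters, and for the CUSP FORMS of type `D₄`: if `ρ_g` has image the dihedral group of order `8`, and `ℚ(√u, √v)` is
the biquadratic field in the field of `ρ_g`, then `V_g ⊗ V_g = 1 ⊕ χ_u ⊕ χ_v ⊕ χ_{uv}`, and
`V_g ⊗ V_h = χ_D ⊕ χ_{uD} ⊕ χ_{vD} ⊕ χ_{uvD}` for `h = g ⊗ χ_D`. As `g` and `h` are odd two of the four `c` are
negative. We take `c = D_j` or `c = -7 D_j`, `D_j` positive; `E_{-7 D}` is isogenous to `E_D`.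

**The two sides of the question.** `L(f_i ⊗ g ⊗ h, s)` is the product of the four `L(f_i ⊗ χ_c, s)`. For `k = 2` the
space `CH^1(X_1(N)/H)_{0,L}^{[f]}` is `E(H) ⊗ L`, and `Hom(V_g ⊗ V_h, E(H) ⊗ L)` is the sum of the four
`E_c(ℚ) ⊗ L`, `E_c : y² = x³ - 2835 c² x - 71442 c³` the quadratic twist of `E` by `c`.

**Theorem.** Let all prime factors of `D` be `1` modulo `4`, `D ≡ 1` modulo `8`, squarefree. `R(D)` is the following
symmetric matrix over `𝔽₂`, with rows and columns indexed by the prime factors `p` of `D` which split in `K`: the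
entry at `(p, p')` is `0` if `p'` is a square modulo `p` and `1` otherwise; the diagonal entry at `p` is the sum
of the symbols of all the other prime factors of `D` modulo `p` and of the symbol which is `0` if `-7` is a fourth
power modulo `p` and `1` otherwise.
(1) If `R(D_j)` is nonsingular for all `j`, then `L(f_i ⊗ g ⊗ h, s)` is entire and not zero at the centre, for ALL even
`i` at once (weights `k = 2, 6, 10, …`), and all `E_{D_j}(ℚ)` are finite: for `k = 2` both sides of the question are `0`.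
(2) Let `m_1, …, m_M` be different positive squarefree integers `≡ 1` modulo `8` whose prime factors are `1`
modulo `8` or inert in `K` and `5` modulo `8`. For exactly the proportion `κ^M`, `κ = (1 - 1/2) (1 - 1/8)
(1 - 1/32) ⋯ = 0.4194…`, of the squarefree `D` with all prime factors `1` modulo `8`, all the matrices
`R(m_1 D), …, R(m_M D)` (products modulo squares) are nonsingular. So for these `D` the statements in (1) hold for all
the triple products with characters `χ_c`, `c = m_j D` or `-7 m_j D`.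

For example let `m` be a product of primes `1` modulo `8` which split in `K`, let `g` be a cusp form of type `D₄` with the
biquadratic field `ℚ(√-7, √m)` (they exist, as `m` is a norm of `K`), and `h = g ⊗ χ_D`: proportion `κ²`.
-/

set_option autoImplicit false
set_option linter.all false

namespace Pool.Agent.Results.MP_60ff09_nt.SumsOfQuadraticCharacters

open Filter
open scoped Classical Topology

/-- `a_p = p - #{(x, y) mod p : y² + x y = x³ - x² - 2 x - 1}`. -/
noncomputable def a (p : ℕ) : ℤ := p - Nat.card {x : ZMod p × ZMod p //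
  x.2 ^ 2 + x.1 * x.2 = x.1 ^ 3 - x.1 ^ 2 - 2 * x.1 - 1}

/-- `α^n + α'^n`, for `X² - a_p X + p = (X - α) (X - α')`. -/
noncomputable def powerSum (p : ℕ) : ℕ → ℤ
  | 0 => 2
  | 1 => a p
  | n + 2 => a p * powerSum p (n + 1) - p * powerSum p n

/-- The quadratic character of `ℚ(√c)` at the prime `p`, for squarefree `c ≡ 1` modulo `4`. -/
def chi (c : ℤ) (p : ℕ) : ℤ := if p = 2 then (if c % 8 = 1 then 1 else -1) else jacobiSym c p

/-- The Euler factor of `L(f_i ⊗ χ_c, s + i + 1)` at `p`, all `p`. -/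
noncomputable def twistFactor (c : ℤ) (i : ℕ) (s : ℂ) (p : ℕ) : ℂ :=
  1 - (chi c p * powerSum p (2 * i + 1) : ℤ) * (p : ℂ) ^ (-(s + i + 1)) +
    (if p = 7 then 0 else 1) * ((chi c p ^ 2 * p ^ (2 * i + 1) : ℤ) : ℂ) *
      ((p : ℂ) ^ (-(s + i + 1))) ^ 2

/-- `F(s)` is the L-function `L(f_i ⊗ g ⊗ h, s + i + 1)`, for `V_g ⊗ V_h` the sum of the characters `χ_(c j)`: an entire
function which is the product of the inverses of all the Euler factors for `Re s > 1/2`. The centre is `s = 0`. -/
def IsLFunction (c : Fin 4 → ℤ) (i : ℕ) (F : ℂ → ℂ) : Prop := Differentiable ℂ F ∧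
  ∀ s : ℂ, 1 / 2 < s.re →
    HasProd (fun p : Nat.Primes => (∏ j, twistFactor (c j) i s p)⁻¹) (F s)

/-- The L-function `L(f_i ⊗ g ⊗ h, s)` is entire and its order at the centre is zero. -/
def OrderZero (c : Fin 4 → ℤ) (i : ℕ) : Prop :=
  ∃ F : ℂ → ℂ, IsLFunction c i F ∧ analyticOrderAt F 0 = 0

/-- The quadratic twist of `X_0(49)` by `D`. -/
def E (D : ℕ) : WeierstrassCurve ℚ :=
  { a₁ := 0, a₂ := 0, a₃ := 0, a₄ := -2835 * D ^ 2, a₆ := -71442 * D ^ 3 }

/-- The class of the `D`: squarefree, all prime factors `1` modulo `4`, `D ≡ 1` modulo `8`. -/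
def Class (D : ℕ) : Prop := Squarefree D ∧ (∀ p : ℕ, p.Prime → p ∣ D → p % 4 = 1) ∧ D % 8 = 1

/-- The prime factors of `D` which split in `ℚ(√-7)`. -/
noncomputable def splitPrimes (D : ℕ) : Finset ℕ :=
  D.primeFactors.filter fun p => IsSquare (-7 : ZMod p)

/-- `0` if `a` is a square modulo `p` and `1` otherwise. -/
noncomputable def nonsquare (p a : ℕ) : ZMod 2 := if IsSquare (a : ZMod p) then 0 else 1

/-- `0` if `-7` is a fourth power modulo `p` and `1` otherwise. -/
noncomputable def nonfourth (p : ℕ) : ZMod 2 := if ∃ y : ZMod p, y ^ 4 = -7 then 0 else 1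

/-- The matrix `R(D)`. -/
noncomputable def R (D : ℕ) : Matrix (splitPrimes D) (splitPrimes D) (ZMod 2) :=
  Matrix.of fun i j => if i = j then ∑ r ∈ D.primeFactors.erase i, nonsquare i r + nonfourth i
    else nonsquare i j

/-- The squarefree integers with all prime factors `1` modulo `8`. -/
def Class8 (D : ℕ) : Prop := Squarefree D ∧ ∀ p : ℕ, p.Prime → p ∣ D → p % 8 = 1

/-- The factors `m_j`: in the class, all prime factors `1` mod `8` or inert in `ℚ(√-7)` and `5` mod `8`. -/
def Factor (m : ℕ) : Prop := Class m ∧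
  ∀ p : ℕ, p.Prime → p ∣ m → p % 8 = 1 ∨ (p % 8 = 5 ∧ ¬ IsSquare (-7 : ZMod p))

/-- The squarefree part of `m D`, for squarefree `m` and `D`. -/
def times (m D : ℕ) : ℕ := m * D / Nat.gcd m D ^ 2

/-- The proportion of the `D ≤ X` with property `T` among those with all prime factors `1` mod `8`. -/
noncomputable def proportion (T : ℕ → Prop) (X : ℕ) : ℝ :=
  (((Finset.Icc 1 X).filter fun D => Class8 D ∧ T D).card : ℝ) /
    (((Finset.Icc 1 X).filter fun D => Class8 D).card : ℝ)

/-- The number `κ = (1 - 1/2) (1 - 1/8) (1 - 1/32) ⋯`. -/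
noncomputable def κ : ℝ := ∏' i : ℕ, (1 - (1 / 2 : ℝ) ^ (2 * i + 1))

/-- (1) If the `c_j` are `D_j` or `-7 D_j` with `D_j` in the class and `R(D_j)` nonsingular, then the order of the
L-function at the centre is zero for all even `i`, and the groups `E_{D_j}(ℚ)` are finite. -/
def BothSidesZero : Prop := ∀ (D : Fin 4 → ℕ) (c : Fin 4 → ℤ),
  (∀ j, Class (D j) ∧ (R (D j)).det ≠ 0 ∧ (c j = D j ∨ c j = -7 * D j)) →
    (∀ i : ℕ, Even i → OrderZero c i) ∧ ∀ j, Finite (E (D j)).toAffine.Point

/-- (2) The proportion. -/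
def JointProportion : Prop :=
  ∀ (M : ℕ) (m : Fin M → ℕ), Function.Injective m → (∀ j, Factor (m j)) →
    (∀ D, Class8 D → ∀ j, Class (times (m j) D)) ∧
    Tendsto (proportion fun D => ∀ j, (R (times (m j) D)).det ≠ 0) atTop (𝓝 (κ ^ M))

section proof

open Pool.Agent.Q274.BKC

lemma cl_iff (D : ℕ) : Class D ↔ Cl 7 D := by
  constructor
  · rintro ⟨h1, h2, h3⟩
    exact ⟨h1, fun p hp hd => ⟨h2 p hp hd, by have := h2 p hp hd; omega⟩, by omega⟩
  · rintro ⟨h1, h2, h3⟩
    exact ⟨h1, fun p hp hd => (h2 p hp hd).1, by omega⟩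

lemma cl8_iff (D : ℕ) : Class8 D ↔ Cl8 7 D := by
  constructor
  · rintro ⟨h1, h2⟩
    exact ⟨h1, fun p hp hd => ⟨h2 p hp hd, by have := h2 p hp hd; omega⟩⟩
  · rintro ⟨h1, h2⟩
    exact ⟨h1, fun p hp hd => (h2 p hp hd).1⟩

lemma fac_iff {m : ℕ} (h : Factor m) : Clm 7 m ∧ (16 : ℤ) ∣ 2 * m + 5 - (7 : ℕ) := by
  have hc := (cl_iff m).1 h.1
  exact ⟨⟨h.1.1, fun p hp hm => ⟨by simpa using h.2 p hp hm, (hc.one p hp hm).2⟩⟩, hc.cong⟩

lemma sp_eq (D : ℕ) : splitPrimes D = SP 7 D := by
  unfold splitPrimes SP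
  simp

lemma det_iff (D : ℕ) : (R D).det ≠ 0 ↔ corank 7 D = 0 := by
  have h1 : (Pool.Agent.Q274.BKC.R 7 D).det ≠ 0 ↔ corank 7 D = 0 := by
    unfold corank
    rw [Submodule.finrank_eq_zero, Matrix.ker_mulVecLin_eq_bot_iff]
    constructor
    · intro h v hv
      by_contra h0
      exact h (Matrix.exists_mulVec_eq_zero_iff.1 ⟨v, h0, hv⟩)
    · intro h h0
      obtain ⟨v, hv, hv0⟩ := Matrix.exists_mulVec_eq_zero_iff.2 h0
      exact hv (h v hv0)
  rw [← h1]
  have h2 : (R D).det = (Pool.Agent.Q274.BKC.R 7 D).det := by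
    have key : ∀ (S : Finset ℕ) (h : S = SP 7 D),
        (Matrix.of fun i j : S => if i = j then ∑ r ∈ D.primeFactors.erase (i : ℕ),
          nonsquare i r + nonfourth i else nonsquare i j).det =
        (Pool.Agent.Q274.BKC.R 7 D).det := by
      rintro S rfl
      congr 1
    exact key _ (sp_eq D)
  rw [h2]

lemma power_eq (p : ℕ) : powerSum p = Pool.Agent.Q274.BKL.uu p := by
  funext n
  induction n using Nat.twoStepInduction with
  | zero => rfl
  | one => rfl
  | more n h1 h2 =>
    rw [powerSum, Pool.Agent.Q274.BKL.uu, h1, h2]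
    rfl

lemma factor_eq (c : ℤ) (i : ℕ) (s : ℂ) (p : ℕ) :
    twistFactor c i s p = Pool.Agent.Q274.TP.tf c i s p := by
  unfold twistFactor Pool.Agent.Q274.TP.tf
  rw [power_eq]
  rfl

end proof

theorem result : BothSidesZero ∧ JointProportion ∧ 0.4194 < κ ∧ κ < 0.4195 := by
  refine ⟨?_, ?_, Pool.Agent.Q274.BKC.kappa_bounds.1, Pool.Agent.Q274.BKC.kappa_bounds.2⟩
  · intro D c h
    refine ⟨fun i hi => ?_, fun j => ?_⟩
    · have h1 : ∀ j, ∃ b : Bool, c j = Pool.Agent.Q274.TP.signed b (D j) := by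
        intro j
        rcases (h j).2.2 with h2 | h2
        · exact ⟨false, h2⟩
        · exact ⟨true, h2⟩
      choose b hb using h1
      obtain ⟨F, ⟨h2, h3⟩, h4⟩ := Pool.Agent.Q274.TP.lfun D b (fun j => (cl_iff _).1 (h j).1)
        (fun j => (det_iff _).1 (h j).2.1) hi
      refine ⟨F, ⟨h2, fun s hs => ?_⟩, h4⟩
      have h5 := h3 s hs
      simp only [factor_eq, hb]
      exact h5
    · have h1 := (Pool.Agent.Q274.TP.finite_points ((cl_iff _).1 (h j).1) ((det_iff _).1 (h j).2.1)).1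
      have e : E (D j) = Pool.Agent.Z702.sh (-2835 * ((D j : ℕ) : ℤ) ^ 2) (-71442 * ((D j : ℕ) : ℤ) ^ 3) := by
        unfold E Pool.Agent.Z702.sh
        push_cast
        rfl
      rw [e]
      exact h1
  · intro M m hm hf
    refine ⟨fun D hD j => ?_, ?_⟩
    · obtain ⟨h1, h2⟩ := fac_iff (hf j)
      exact (cl_iff _).2 (Pool.Agent.Q274.BKC.tw_Cl h1 h2 ((cl8_iff D).1 hD))
    · have h := Pool.Agent.Q274.BKC.t_LAW 7 (by norm_num) rfl M m (fun _ => 0) hm
        fun j => (fac_iff (hf j)).1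
      rw [Pool.Agent.Q274.BKC.cR_eq] at h
      have e : (∏ j : Fin M, ((∏' i : ℕ, (1 - (1 / 2 : ℝ) ^ (2 * i + 1))) /
          ∏ i ∈ Finset.range 0, ((2 : ℝ) ^ (i + 1) - 1))) = κ ^ M := by
        simp [κ]
      rw [e] at h
      refine h.congr fun X => ?_
      unfold proportion
      simp only [det_iff, cl8_iff]
      congr! 4

end Pool.Agent.Results.MP_60ff09_nt.SumsOfQuadraticCharacters
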